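import Mathlib
import Pool.Agent.U209.BX.Stm

set_option autoImplicit false

/-!
Project BX, package NB: the limit function is not in `BMOA`.
-/

namespace Pool.Agent.U603.BX

open Polynomial Complex Finset Filter Topology MeasureTheory ComplexConjugate Metric
open Pool.Agent.U209.BX

lemma ex_norm (θ : ℝ) : ‖ex θ‖ = 1 := by
  unfold ex; exact Complex.norm_exp_ofReal_mul_I θ

lemma ex_cont : Continuous ex := by unfold ex; fun_prop

lemma ex_periodic : Function.Periodic ex (2 * Real.pi) := by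
  intro θ
  unfold ex
  push_cast
  rw [add_mul, Complex.exp_add, Complex.exp_two_pi_mul_I, mul_one]

lemma Fn_cont {X : Type*} [TopologicalSpace X] (u : ℂ[X]) (hu : ZF u) (g : X → ℂ)
    (hg : Continuous g) (h1 : ∀ x, ‖g x‖ ≤ 1) : Continuous (fun x => Fn u (g x)) := by
  unfold Fn
  apply Continuous.inv₀
  · exact (u.continuous.comp hg).pow 3
  · intro x; exact pow_ne_zero 3 (hu _ (h1 x))

/-- the character has integral zero over a full period -/
lemma int_char (q : ℕ) (hq : 0 < q) (α : ℝ) :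
    ∫ θ in α..(α + 2 * Real.pi / q), ex (-(q * θ)) = 0 := by
  have hq' : (q : ℂ) ≠ 0 := by exact_mod_cast hq.ne'
  have hc : (-(q : ℂ) * I) ≠ 0 := mul_ne_zero (neg_ne_zero.2 hq') I_ne_zero
  have e : ∀ θ : ℝ, ex (-(q * θ)) = Complex.exp ((-(q : ℂ) * I) * θ) := by
    intro θ
    unfold ex
    congr 1
    push_cast
    ring
  simp_rw [e]
  rw [integral_exp_mul_complex hc]
  have e2 : Complex.exp ((-(q : ℂ) * I) * ((α + 2 * Real.pi / q : ℝ) : ℂ)) =
      Complex.exp ((-(q : ℂ) * I) * (α : ℂ)) := by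
    have : (-(q : ℂ) * I) * ((α + 2 * Real.pi / q : ℝ) : ℂ) =
        (-(q : ℂ) * I) * (α : ℂ) - 2 * Real.pi * I := by
      push_cast
      field_simp
      ring
    rw [this]
    exact Complex.exp_periodic.sub_eq _
  rw [e2, sub_self, zero_div]

/-- continuity up to the circle, in the mean -/
lemma Fn_radial (u : ℂ[X]) (hu : ZF u) :
    Tendsto (fun r : ℝ => ∫ θ in (0:ℝ)..(2 * Real.pi),
      ‖Fn u (r * ex θ) - Fn u (ex θ)‖ ^ 2) (𝓝[<] 1) (𝓝 0) := by
  let cl : ℝ → ℝ := fun r => max 0 (min r 1)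
  have hcl : Continuous cl := by
    show Continuous (fun r : ℝ => max 0 (min r 1))
    fun_prop
  have hcl1 : ∀ r, |cl r| ≤ 1 := by
    intro r
    have h0 : 0 ≤ cl r := le_max_left _ _
    rw [abs_of_nonneg h0]
    exact max_le zero_le_one (min_le_right _ _)
  let H : ℝ → ℝ → ℝ := fun r θ => ‖Fn u (cl r * ex θ) - Fn u (ex θ)‖ ^ 2
  have hH : Continuous (Function.uncurry H) := by
    have h1 : Continuous (fun x : ℝ × ℝ => Fn u ((cl x.1 : ℂ) * ex x.2)) := by
      apply Fn_cont u hu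
      · exact (Complex.continuous_ofReal.comp (hcl.comp continuous_fst)).mul
          (ex_cont.comp continuous_snd)
      · intro x
        rw [norm_mul, ex_norm, mul_one, Complex.norm_real]
        exact hcl1 x.1
    have h2 : Continuous (fun x : ℝ × ℝ => Fn u (ex x.2)) := by
      apply Fn_cont u hu
      · exact ex_cont.comp continuous_snd
      · intro x
        rw [ex_norm]
    exact ((h1.sub h2).norm).pow 2
  have hI : Continuous (fun r : ℝ => ∫ θ in (0:ℝ)..(2 * Real.pi), H r θ) :=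
    intervalIntegral.continuous_parametric_intervalIntegral_of_continuous' hH 0 (2 * Real.pi)
  have h1 : Tendsto (fun r : ℝ => ∫ θ in (0:ℝ)..(2 * Real.pi), H r θ) (𝓝[<] 1)
      (𝓝 (∫ θ in (0:ℝ)..(2 * Real.pi), H 1 θ)) := (hI.tendsto 1).mono_left nhdsWithin_le_nhds
  have h2 : ∫ θ in (0:ℝ)..(2 * Real.pi), H 1 θ = 0 := by
    have : ∀ θ, H 1 θ = 0 := by
      intro θ
      simp [H, cl]
    simp [this]
  rw [h2] at h1
  refine h1.congr' ?_
  have h3 : ∀ᶠ r : ℝ in 𝓝[<] 1, 0 < r :=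
    mem_nhdsWithin_of_mem_nhds (lt_mem_nhds zero_lt_one)
  filter_upwards [h3, self_mem_nhdsWithin] with r hr hr1
  have hr1' : r < 1 := hr1
  have : cl r = r := by
    show max 0 (min r 1) = r
    rw [min_eq_left hr1'.le, max_eq_right hr.le]
  simp only [H, this]

/-- the distance of the boundary function from an approximation -/
lemma dist_bound (u : ℕ → ℂ[X]) (C : ℝ) (d : ℕ → ℝ) (F : ℂ → ℂ) (hG : Good u C d)
    (hL : IsLim u d F) (c : ℂ) (b : ℝ → ℂ)
    (hb : IsBoundaryFunction (fun z => c * F z) b) (j : ℕ) :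
    ∫ θ in (0:ℝ)..(2 * Real.pi), ‖b θ - c * Fn (u j) (ex θ)‖ ^ 2 ≤
      3 * ‖c‖ ^ 2 * (∑' l, d (l + j)) ^ 2 := by
  obtain ⟨hFd, -, hF3⟩ := hL
  have hu := hG.1 j
  set T := ∑' l, d (l + j) with hT
  have hpi : (0:ℝ) ≤ 2 * Real.pi := by positivity
  have hfin : IsFiniteMeasure (volume.restrict (Set.Ioc (0:ℝ) (2 * Real.pi))) := by
    infer_instance
  -- square integrability
  have hcontLp : ∀ g : ℝ → ℂ, Continuous g →
      MemLp g 2 (volume.restrict (Set.Ioc (0:ℝ) (2 * Real.pi))) := by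
    intro g hg
    obtain ⟨M, hM⟩ := (isCompact_Icc (a := (0:ℝ)) (b := 2 * Real.pi)).exists_bound_of_continuousOn
      hg.continuousOn
    refine MemLp.of_bound hg.aestronglyMeasurable M ?_
    filter_upwards [ae_restrict_mem measurableSet_Ioc] with θ hθ
    exact hM θ ⟨hθ.1.le, hθ.2⟩
  have hint : ∀ g : ℝ → ℂ, MemLp g 2 (volume.restrict (Set.Ioc (0:ℝ) (2 * Real.pi))) →
      IntervalIntegrable (fun θ => ‖g θ‖ ^ 2) volume 0 (2 * Real.pi) := by
    intro g hg
    rw [intervalIntegrable_iff_integrableOn_Ioc_of_le hpi]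
    exact hg.integrable_norm_pow (by norm_num)
  have hc0 : Continuous (fun θ : ℝ => c * Fn (u j) (ex θ)) :=
    continuous_const.mul (Fn_cont (u j) hu _ ex_cont (fun x => (ex_norm x).le))
  have key : ∀ r : ℝ, 0 < r → r < 1 →
      ∫ θ in (0:ℝ)..(2 * Real.pi), ‖b θ - c * Fn (u j) (ex θ)‖ ^ 2 ≤
        3 * (∫ θ in (0:ℝ)..(2 * Real.pi), ‖c * F (r * exp (θ * I)) - b θ‖ ^ 2) +
        3 * ‖c‖ ^ 2 * T ^ 2 +
        3 * ‖c‖ ^ 2 * (∫ θ in (0:ℝ)..(2 * Real.pi),
          ‖Fn (u j) (r * ex θ) - Fn (u j) (ex θ)‖ ^ 2) := by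
    intro r hr hr1
    have hball : ∀ θ : ℝ, ((r : ℂ) * ex θ) ∈ ball (0:ℂ) 1 := by
      intro θ
      rw [mem_ball_zero_iff, norm_mul, ex_norm, mul_one, Complex.norm_real, Real.norm_eq_abs,
        abs_of_pos hr]
      exact hr1
    have hcF : Continuous (fun θ : ℝ => F (r * ex θ)) := by
      apply hFd.continuousOn.comp_continuous (continuous_const.mul ex_cont) hball
    have hcFn : Continuous (fun θ : ℝ => Fn (u j) (r * ex θ)) := by
      apply Fn_cont (u j) hu _ (continuous_const.mul ex_cont)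
      intro θ
      exact (mem_ball_zero_iff.1 (hball θ)).le
    have hcFn1 : Continuous (fun θ : ℝ => Fn (u j) (ex θ)) :=
      Fn_cont (u j) hu _ ex_cont (fun x => (ex_norm x).le)
    have i1 : IntervalIntegrable (fun θ : ℝ => ‖c * F (r * ex θ) - b θ‖ ^ 2) volume 0
        (2 * Real.pi) := by
      exact hint _ ((hcontLp _ (continuous_const.mul hcF)).sub hb.memLp)
    have i2 : IntervalIntegrable (fun θ : ℝ => ‖F (r * ex θ) - Fn (u j) (r * ex θ)‖ ^ 2) volume 0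
        (2 * Real.pi) := ((hcF.sub hcFn).norm.pow 2).intervalIntegrable _ _
    have i3 : IntervalIntegrable (fun θ : ℝ => ‖Fn (u j) (r * ex θ) - Fn (u j) (ex θ)‖ ^ 2) volume 0
        (2 * Real.pi) := ((hcFn.sub hcFn1).norm.pow 2).intervalIntegrable _ _
    have i4 : IntervalIntegrable (fun θ : ℝ => ‖b θ - c * Fn (u j) (ex θ)‖ ^ 2) volume 0
        (2 * Real.pi) := hint _ (hb.memLp.sub (hcontLp _ hc0))
    have hpt : ∀ θ : ℝ, ‖b θ - c * Fn (u j) (ex θ)‖ ^ 2 ≤
        3 * ‖c * F (r * ex θ) - b θ‖ ^ 2 +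
        (3 * ‖c‖ ^ 2) * ‖F (r * ex θ) - Fn (u j) (r * ex θ)‖ ^ 2 +
        (3 * ‖c‖ ^ 2) * ‖Fn (u j) (r * ex θ) - Fn (u j) (ex θ)‖ ^ 2 := by
      intro θ
      have h1 : b θ - c * Fn (u j) (ex θ) =
          -(c * F (r * ex θ) - b θ) + c * (F (r * ex θ) - Fn (u j) (r * ex θ)) +
          c * (Fn (u j) (r * ex θ) - Fn (u j) (ex θ)) := by ring
      have h2 : ‖b θ - c * Fn (u j) (ex θ)‖ ≤ ‖c * F (r * ex θ) - b θ‖ +
          ‖c‖ * ‖F (r * ex θ) - Fn (u j) (r * ex θ)‖ +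
          ‖c‖ * ‖Fn (u j) (r * ex θ) - Fn (u j) (ex θ)‖ := by
        rw [h1]
        refine (norm_add₃_le).trans ?_
        rw [norm_neg, norm_mul, norm_mul]
      have h3 := norm_nonneg (b θ - c * Fn (u j) (ex θ))
      set x := ‖c * F (r * ex θ) - b θ‖
      set y := ‖F (r * ex θ) - Fn (u j) (r * ex θ)‖
      set z := ‖Fn (u j) (r * ex θ) - Fn (u j) (ex θ)‖
      calc ‖b θ - c * Fn (u j) (ex θ)‖ ^ 2 ≤ (x + ‖c‖ * y + ‖c‖ * z) ^ 2 :=
            pow_le_pow_left₀ h3 h2 2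
        _ ≤ _ := by
            nlinarith [sq_nonneg (x - ‖c‖ * y), sq_nonneg (x - ‖c‖ * z),
              sq_nonneg (‖c‖ * y - ‖c‖ * z)]
    have hI : ∫ θ in (0:ℝ)..(2 * Real.pi), ‖b θ - c * Fn (u j) (ex θ)‖ ^ 2 ≤
        ∫ θ in (0:ℝ)..(2 * Real.pi), (3 * ‖c * F (r * ex θ) - b θ‖ ^ 2 +
        (3 * ‖c‖ ^ 2) * ‖F (r * ex θ) - Fn (u j) (r * ex θ)‖ ^ 2 +
        (3 * ‖c‖ ^ 2) * ‖Fn (u j) (r * ex θ) - Fn (u j) (ex θ)‖ ^ 2) := by
      apply intervalIntegral.integral_mono_on hpi i4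
        (((i1.const_mul _).add (i2.const_mul _)).add (i3.const_mul _))
      intro θ _
      exact hpt θ
    rw [intervalIntegral.integral_add ((i1.const_mul _).add (i2.const_mul _)) (i3.const_mul _),
      intervalIntegral.integral_add (i1.const_mul _) (i2.const_mul _),
      intervalIntegral.integral_const_mul, intervalIntegral.integral_const_mul,
      intervalIntegral.integral_const_mul] at hI
    have h5 := hF3 j r hr hr1
    have h6 : 3 * ‖c‖ ^ 2 * ∫ θ in (0:ℝ)..(2 * Real.pi),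
        ‖F (r * ex θ) - Fn (u j) (r * ex θ)‖ ^ 2 ≤ 3 * ‖c‖ ^ 2 * T ^ 2 := by
      apply mul_le_mul_of_nonneg_left h5 (by positivity)
    refine hI.trans ?_
    have h7 : (∫ θ in (0:ℝ)..(2 * Real.pi), ‖c * F (r * ex θ) - b θ‖ ^ 2) =
        ∫ θ in (0:ℝ)..(2 * Real.pi), ‖c * F (r * exp (θ * I)) - b θ‖ ^ 2 := rfl
    rw [h7]
    linarith
  have hlim : Tendsto (fun r : ℝ =>
      3 * (∫ θ in (0:ℝ)..(2 * Real.pi), ‖c * F (r * exp (θ * I)) - b θ‖ ^ 2) +
        3 * ‖c‖ ^ 2 * T ^ 2 +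
        3 * ‖c‖ ^ 2 * (∫ θ in (0:ℝ)..(2 * Real.pi),
          ‖Fn (u j) (r * ex θ) - Fn (u j) (ex θ)‖ ^ 2)) (𝓝[<] 1)
      (𝓝 (3 * 0 + 3 * ‖c‖ ^ 2 * T ^ 2 + 3 * ‖c‖ ^ 2 * 0)) :=
    ((hb.lim.const_mul 3).add tendsto_const_nhds).add ((Fn_radial (u j) hu).const_mul _)
  have h0 : 3 * 0 + 3 * ‖c‖ ^ 2 * T ^ 2 + 3 * ‖c‖ ^ 2 * 0 = 3 * ‖c‖ ^ 2 * T ^ 2 := by ring
  rw [h0] at hlim
  refine ge_of_tendsto hlim ?_
  have h3 : ∀ᶠ r : ℝ in 𝓝[<] 1, 0 < r :=
    mem_nhdsWithin_of_mem_nhds (lt_mem_nhds zero_lt_one)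
  filter_upwards [h3, self_mem_nhdsWithin] with r hr hr1
  exact key r hr hr1

theorem t_NB : S_NB := by
  rintro u C d F hG hL c hc ⟨-, -, b, hb, hint, Cb, hosc⟩
  have hG' := hG
  obtain ⟨hZF, -, hd0, hdS, -, hA⟩ := hG'
  have hcn : 0 < ‖c‖ := norm_pos_iff.2 hc
  obtain ⟨j, q, α, hq, hAq, hqT⟩ := hA ((2 * Real.pi * Cb + Real.pi + 3 / 2 * ‖c‖ ^ 2 + 1) / ‖c‖)
  set T := ∑' l, d (l + j) with hT
  have hT0 : 0 ≤ T := tsum_nonneg fun l => hd0 _
  have hq1 : (1:ℝ) ≤ q := by exact_mod_cast hq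
  have hq0 : (0:ℝ) < q := by linarith
  have hT1 : T ≤ 1 := by nlinarith
  have hpi := Real.pi_pos
  have hJ : 0 < 2 * Real.pi / q := by positivity
  have hJ2 : 2 * Real.pi / q ≤ 2 * Real.pi := div_le_self (by positivity) hq1
  have hle : α ≤ α + 2 * Real.pi / q := by linarith
  have hdist := dist_bound u C d F hG hL c b hb j
  -- integrability
  have hbI : ∀ x y : ℝ, IntervalIntegrable b volume x y := fun x y =>
    hb.periodic.intervalIntegrable₀ (by positivity) hint x y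
  have hGc : Continuous (fun θ : ℝ => c * Fn (u j) (ex θ)) :=
    continuous_const.mul (Fn_cont (u j) (hZF j) _ ex_cont (fun x => (ex_norm x).le))
  have hexq : Continuous (fun θ : ℝ => ex (-(q * θ))) := ex_cont.comp (by fun_prop)
  have hsq0 : IntervalIntegrable (fun θ : ℝ => ‖b θ - c * Fn (u j) (ex θ)‖ ^ 2) volume 0
      (2 * Real.pi) := by
    have hfin : IsFiniteMeasure (volume.restrict (Set.Ioc (0:ℝ) (2 * Real.pi))) := by
      infer_instance
    rw [intervalIntegrable_iff_integrableOn_Ioc_of_le (by positivity)]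
    have h1 : MemLp (fun θ : ℝ => c * Fn (u j) (ex θ)) 2
        (volume.restrict (Set.Ioc (0:ℝ) (2 * Real.pi))) := by
      obtain ⟨M, hM⟩ := (isCompact_Icc (a := (0:ℝ))
        (b := 2 * Real.pi)).exists_bound_of_continuousOn hGc.continuousOn
      refine MemLp.of_bound hGc.aestronglyMeasurable M ?_
      filter_upwards [ae_restrict_mem measurableSet_Ioc] with θ hθ
      exact hM θ ⟨hθ.1.le, hθ.2⟩
    exact (hb.memLp.sub h1).integrable_norm_pow (by norm_num)
  have hper : Function.Periodic (fun θ : ℝ => ‖b θ - c * Fn (u j) (ex θ)‖ ^ 2)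
      (2 * Real.pi) := by
    intro θ
    simp only [hb.periodic θ, ex_periodic θ]
  have hsq : ∀ x y : ℝ, IntervalIntegrable (fun θ : ℝ => ‖b θ - c * Fn (u j) (ex θ)‖ ^ 2)
      volume x y := fun x y => hper.intervalIntegrable₀ (by positivity) hsq0 x y
  -- the square integral over the arc
  have harc : ∫ θ in α..(α + 2 * Real.pi / q), ‖b θ - c * Fn (u j) (ex θ)‖ ^ 2 ≤
      3 * ‖c‖ ^ 2 * T ^ 2 := by
    have h1 : ∫ θ in α..(α + 2 * Real.pi / q), ‖b θ - c * Fn (u j) (ex θ)‖ ^ 2 ≤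
        ∫ θ in α..(α + 2 * Real.pi), ‖b θ - c * Fn (u j) (ex θ)‖ ^ 2 := by
      apply intervalIntegral.integral_mono_interval le_rfl hle (by linarith)
      · exact Eventually.of_forall fun θ => by positivity
      · exact hsq _ _
    have h2 : ∫ θ in α..(α + 2 * Real.pi), ‖b θ - c * Fn (u j) (ex θ)‖ ^ 2 =
        ∫ θ in (0:ℝ)..(2 * Real.pi), ‖b θ - c * Fn (u j) (ex θ)‖ ^ 2 := by
      have := hper.intervalIntegral_add_eq α 0
      rw [zero_add] at this
      exact this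
    rw [h2] at h1
    exact h1.trans hdist
  -- the oscillation part
  have hO := hosc α (α + 2 * Real.pi / q) (by linarith) (by linarith)
  have hlen : α + 2 * Real.pi / q - α = 2 * Real.pi / q := by ring
  rw [hlen] at hO
  set m := arcMean b α (α + 2 * Real.pi / q) with hm
  have hO2 : (q:ℝ) * ∫ θ in α..(α + 2 * Real.pi / q), ‖b θ - m‖ ≤ 2 * Real.pi * Cb := by
    have h1 : (2 * Real.pi / q)⁻¹ = q / (2 * Real.pi) := by rw [inv_div]
    rw [h1] at hO
    have h2 : (q:ℝ) * ∫ θ in α..(α + 2 * Real.pi / q), ‖b θ - m‖ =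
        2 * Real.pi * (q / (2 * Real.pi) * ∫ θ in α..(α + 2 * Real.pi / q), ‖b θ - m‖) := by
      field_simp
    rw [h2]
    exact mul_le_mul_of_nonneg_left hO (by positivity)
  have hb1 : ∫ θ in α..(α + 2 * Real.pi / q), b θ * ex (-(q * θ)) =
      ∫ θ in α..(α + 2 * Real.pi / q), (b θ - m) * ex (-(q * θ)) := by
    have i1 : IntervalIntegrable (fun θ : ℝ => b θ * ex (-(q * θ))) volume α
        (α + 2 * Real.pi / q) := (hbI _ _).mul_continuousOn hexq.continuousOn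
    have i2 : IntervalIntegrable (fun θ : ℝ => m * ex (-(q * θ))) volume α
        (α + 2 * Real.pi / q) := (continuous_const.mul hexq).intervalIntegrable _ _
    simp_rw [sub_mul]
    rw [intervalIntegral.integral_sub i1 i2, intervalIntegral.integral_const_mul,
      int_char q hq α, mul_zero, sub_zero]
  have hb2 : ‖(q:ℂ) * ∫ θ in α..(α + 2 * Real.pi / q), b θ * ex (-(q * θ))‖ ≤
      2 * Real.pi * Cb := by
    rw [hb1, norm_mul, Complex.norm_natCast]
    refine le_trans ?_ hO2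
    apply mul_le_mul_of_nonneg_left _ hq0.le
    refine (intervalIntegral.norm_integral_le_integral_norm hle).trans ?_
    apply le_of_eq
    congr 1
    funext θ
    rw [norm_mul, ex_norm, mul_one]
  -- the difference part
  have hd1 : ‖(q:ℂ) * ∫ θ in α..(α + 2 * Real.pi / q),
      (b θ - c * Fn (u j) (ex θ)) * ex (-(q * θ))‖ ≤ Real.pi + 3 / 2 * ‖c‖ ^ 2 := by
    rw [norm_mul, Complex.norm_natCast]
    have h1 : ‖∫ θ in α..(α + 2 * Real.pi / q),
        (b θ - c * Fn (u j) (ex θ)) * ex (-(q * θ))‖ ≤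
        ∫ θ in α..(α + 2 * Real.pi / q), ‖b θ - c * Fn (u j) (ex θ)‖ := by
      refine (intervalIntegral.norm_integral_le_integral_norm hle).trans ?_
      apply le_of_eq
      congr 1
      funext θ
      rw [norm_mul, ex_norm, mul_one]
    have h2 : ∫ θ in α..(α + 2 * Real.pi / q), ‖b θ - c * Fn (u j) (ex θ)‖ ≤
        ∫ θ in α..(α + 2 * Real.pi / q), (1 / 2 + 1 / 2 * ‖b θ - c * Fn (u j) (ex θ)‖ ^ 2) := by
      apply intervalIntegral.integral_mono_on hle
      · exact ((hbI _ _).sub (hGc.intervalIntegrable _ _)).norm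
      · exact intervalIntegrable_const.add ((hsq _ _).const_mul _)
      · intro θ _
        nlinarith [sq_nonneg (‖b θ - c * Fn (u j) (ex θ)‖ - 1)]
    rw [intervalIntegral.integral_add intervalIntegrable_const ((hsq _ _).const_mul _),
      intervalIntegral.integral_const, intervalIntegral.integral_const_mul, smul_eq_mul,
      hlen] at h2
    have h3 : (q:ℝ) * (2 * Real.pi / q * (1 / 2)) = Real.pi := by field_simp
    have h4 : (q:ℝ) * (1 / 2 * ∫ θ in α..(α + 2 * Real.pi / q),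
        ‖b θ - c * Fn (u j) (ex θ)‖ ^ 2) ≤ 3 / 2 * ‖c‖ ^ 2 := by
      have h5 : (q:ℝ) * (1 / 2 * ∫ θ in α..(α + 2 * Real.pi / q),
          ‖b θ - c * Fn (u j) (ex θ)‖ ^ 2) ≤ q * (1 / 2 * (3 * ‖c‖ ^ 2 * T ^ 2)) := by
        apply mul_le_mul_of_nonneg_left _ hq0.le
        apply mul_le_mul_of_nonneg_left harc (by norm_num)
      have h6 : (q:ℝ) * T ^ 2 ≤ 1 := by nlinarith
      have h7 : 0 ≤ ‖c‖ ^ 2 := by positivity
      nlinarith
    calc (q:ℝ) * ‖∫ θ in α..(α + 2 * Real.pi / q),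
        (b θ - c * Fn (u j) (ex θ)) * ex (-(q * θ))‖
        ≤ q * (2 * Real.pi / q * (1 / 2) + 1 / 2 * ∫ θ in α..(α + 2 * Real.pi / q),
          ‖b θ - c * Fn (u j) (ex θ)‖ ^ 2) := by
          apply mul_le_mul_of_nonneg_left (h1.trans h2) hq0.le
      _ ≤ _ := by rw [mul_add, h3]; linarith
  -- conclusion
  have hsplit : c * ((q:ℂ) * ∫ θ in α..(α + 2 * Real.pi / q),
      Fn (u j) (ex θ) * ex (-(q * θ))) =
      (q:ℂ) * (∫ θ in α..(α + 2 * Real.pi / q), b θ * ex (-(q * θ))) -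
      (q:ℂ) * ∫ θ in α..(α + 2 * Real.pi / q),
        (b θ - c * Fn (u j) (ex θ)) * ex (-(q * θ)) := by
    have i1 : IntervalIntegrable (fun θ : ℝ => b θ * ex (-(q * θ))) volume α
        (α + 2 * Real.pi / q) := (hbI _ _).mul_continuousOn hexq.continuousOn
    have i2 : IntervalIntegrable (fun θ : ℝ => c * Fn (u j) (ex θ) * ex (-(q * θ))) volume α
        (α + 2 * Real.pi / q) := (hGc.mul hexq).intervalIntegrable _ _
    have h1 : ∫ θ in α..(α + 2 * Real.pi / q), (b θ - c * Fn (u j) (ex θ)) * ex (-(q * θ)) =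
        (∫ θ in α..(α + 2 * Real.pi / q), b θ * ex (-(q * θ))) -
        ∫ θ in α..(α + 2 * Real.pi / q), c * Fn (u j) (ex θ) * ex (-(q * θ)) := by
      simp_rw [sub_mul]
      rw [intervalIntegral.integral_sub i1 i2]
    have h2 : ∫ θ in α..(α + 2 * Real.pi / q), c * Fn (u j) (ex θ) * ex (-(q * θ)) =
        c * ∫ θ in α..(α + 2 * Real.pi / q), Fn (u j) (ex θ) * ex (-(q * θ)) := by
      rw [← intervalIntegral.integral_const_mul]
      congr 1
      funext θ
      ring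
    rw [h1, h2]
    ring
  have hfin : ‖c‖ * ‖(q:ℂ) * ∫ θ in α..(α + 2 * Real.pi / q),
      Fn (u j) (ex θ) * ex (-(q * θ))‖ ≤
      2 * Real.pi * Cb + (Real.pi + 3 / 2 * ‖c‖ ^ 2) := by
    rw [← norm_mul, hsplit]
    exact (norm_sub_le _ _).trans (add_le_add hb2 hd1)
  have hbig : 2 * Real.pi * Cb + Real.pi + 3 / 2 * ‖c‖ ^ 2 + 1 ≤
      ‖c‖ * ‖(q:ℂ) * ∫ θ in α..(α + 2 * Real.pi / q),
      Fn (u j) (ex θ) * ex (-(q * θ))‖ := by
    rw [div_le_iff₀ hcn] at hAq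
    linarith [mul_comm ‖c‖ ‖(q:ℂ) * ∫ θ in α..(α + 2 * Real.pi / q),
      Fn (u j) (ex θ) * ex (-(q * θ))‖]
  linarith

end Pool.Agent.U603.BX
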